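import Pool.Agent.Run7.h251.CN.Mom

/-!
# The critical length, part 4: the number of the survivors up to constants
-/

set_option autoImplicit false

namespace Run7.h251.CN

open Finset Filter
open Pool.Agent.Run7.h931.RS (Pw Fw one_le_Pw one_le_Fw wt wt_nonneg ev_log sharp moments)
open Pool.Agent.Run7.h931.RL (Cr cls hitc hitc_sub sur sur_le sur_at lf lf_add lft_eq rest rest_at rest_eq)
open Run7.h251.KW (surv wt_eq)
open Run7.h251.NI (Fool meanN chebN)

/-- the survivors in `[N / 2, N]` -/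
def late (N m : ℕ) (s : ℕ → ℕ) : Finset ℕ := (surv N m s).filter fun n => N ≤ 2 * n

/-- a ratio for every coordinate -/
lemma rat_all {m : ℕ} {w M q : ℕ} {c b : Fin m → ℕ} {n : ℕ} {L δ K : ℝ} {S : Finset (Fin m)} (hK : 0 ≤ K) (hL2 : 2 ≤ L)
    (hqM : (M : ℝ) * L ≤ q) (hU : ∀ j, 0 < (cls M (c j) (b j) q).card)
    (hc : ∀ j ∈ S, Cr w M L δ K q (c j) (b j) n) (he : ∀ j ∉ S, hitc M (c j) (b j) q n = ∅) (j : Fin m) :
    ((cls M (c j) (b j) q).card : ℝ) / ((cls M (c j) (b j) q).card - (hitc M (c j) (b j) q n).card) ≤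
      (if j ∈ S then Real.exp (Pw w / L + (Pw w * (3 * K + 2) + 2 * Pw w ^ 2) / L ^ 2) else 1) ∧
      (hitc M (c j) (b j) q n).card < (cls M (c j) (b j) q).card := by
  by_cases hj : j ∈ S
  · rw [if_pos hj]
    exact ⟨ratio (hc j hj) hK hL2 hqM, (Run7.h251.KW.Cr_ratio (hc j hj)).2.2⟩
  · rw [if_neg hj]
    have h3 := he j hj
    have h4 := hU j
    rw [h3, card_empty, Nat.cast_zero, sub_zero]
    refine ⟨?_, h4⟩
    rw [div_self]
    exact_mod_cast h4.ne'

/-- the weighted number is at most the number of the survivors times the size of the weights -/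
lemma Z_le {m : ℕ} (M q : ℕ) (c b : Fin m → ℕ) (n : ℕ → ℕ) (R : ℕ) (β : ℝ) (S : Finset (Fin m))
    (hrat : ∀ k < R, ∀ j, ((cls M (c j) (b j) q).card : ℝ) / ((cls M (c j) (b j) q).card - (hitc M (c j) (b j) q (n k)).card) ≤
      (if j ∈ S then Real.exp β else 1) ∧ (hitc M (c j) (b j) q (n k)).card < (cls M (c j) (b j) q).card)
    (hinj : ∀ k k', n k = n k' → k = k') (X : Finset ℕ) (s : Fin m → ℕ) (hs : ∀ j, s j ∈ cls M (c j) (b j) q)
    (hX : ∀ k < R, (∀ j, ¬ (n k + s j).Prime) → n k ∈ X) :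
    ∑ k ∈ range R, ∏ j, wt (cls M (c j) (b j) q) (hitc M (c j) (b j) q (n k)) (s j) ≤ X.card * Real.exp (S.card * β) := by
  classical
  have h1 : ∀ k ∈ range R, ∏ j, wt (cls M (c j) (b j) q) (hitc M (c j) (b j) q (n k)) (s j) ≤
      if n k ∈ X then Real.exp (S.card * β) else 0 := by
    intro k hk
    rw [mem_range] at hk
    by_cases hsv : n k ∈ X
    · rw [if_pos hsv]
      calc ∏ j, wt (cls M (c j) (b j) q) (hitc M (c j) (b j) q (n k)) (s j) ≤
          ∏ j : Fin m, (if j ∈ S then Real.exp β else 1) := by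
            apply Finset.prod_le_prod
            · exact fun j _ => wt_nonneg _ _ (hitc_sub M (c j) (b j) q (n k)) _
            · intro j _
              obtain ⟨a1, a2⟩ := hrat k hk j
              rw [wt_eq _ _ _ (hs j)]
              have a3 : ((hitc M (c j) (b j) q (n k)).card : ℝ) < (cls M (c j) (b j) q).card := by exact_mod_cast a2
              have a4 : 0 ≤ ((cls M (c j) (b j) q).card : ℝ) / ((cls M (c j) (b j) q).card - (hitc M (c j) (b j) q (n k)).card) :=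
                div_nonneg (Nat.cast_nonneg _) (by linarith)
              split_ifs at a1 ⊢ <;> linarith
        _ = _ := by
            rw [prod_ite, prod_const, prod_const_one, mul_one, ← Real.exp_nat_mul, filter_mem_eq_inter, univ_inter]
    · rw [if_neg hsv]
      have h2 : ¬ ∀ j, ¬ (n k + s j).Prime := fun h => hsv (hX k hk h)
      push Not at h2
      obtain ⟨j, hj⟩ := h2
      apply le_of_eq
      apply prod_eq_zero (mem_univ j)
      rw [wt_eq _ _ _ (hs j), if_pos, mul_zero]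
      unfold hitc
      rw [mem_filter]
      exact ⟨hs j, hj⟩
  refine (sum_le_sum h1).trans ?_
  rw [← sum_filter, sum_const, nsmul_eq_mul]
  apply mul_le_mul_of_nonneg_right _ (Real.exp_pos _).le
  have h2 : ((range R).filter fun k => n k ∈ X).card ≤ X.card := by
    apply card_le_card_of_injOn n
    · intro k hk
      have hk' : k ∈ (range R).filter fun k => n k ∈ X := by exact_mod_cast hk
      exact_mod_cast (mem_filter.1 hk').2
    · intro k _ k' _ hkk
      exact hinj k k' hkk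
  exact_mod_cast h2

/-- the size of the product of the weights -/
lemma prod_rat {m : ℕ} (M q : ℕ) (c b : Fin m → ℕ) (n : ℕ) (β : ℝ) (S : Finset (Fin m))
    (hrat : ∀ j, ((cls M (c j) (b j) q).card : ℝ) / ((cls M (c j) (b j) q).card - (hitc M (c j) (b j) q n).card) ≤
      (if j ∈ S then Real.exp β else 1) ∧ (hitc M (c j) (b j) q n).card < (cls M (c j) (b j) q).card) :
    ∏ j : Fin m, ((cls M (c j) (b j) q).card : ℝ) / ((cls M (c j) (b j) q).card - (hitc M (c j) (b j) q n).card) ≤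
      Real.exp (S.card * β) := by
  calc ∏ j : Fin m, ((cls M (c j) (b j) q).card : ℝ) / ((cls M (c j) (b j) q).card - (hitc M (c j) (b j) q n).card) ≤
      ∏ j : Fin m, (if j ∈ S then Real.exp β else 1) := by
        apply Finset.prod_le_prod
        · intro j _
          have h3 : ((hitc M (c j) (b j) q n).card : ℝ) < (cls M (c j) (b j) q).card := by exact_mod_cast (hrat j).2
          exact div_nonneg (Nat.cast_nonneg _) (by linarith)
        · exact fun j _ => (hrat j).1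
    _ = Real.exp (S.card * β) := by
        rw [prod_ite, prod_const, prod_const_one, mul_one, ← Real.exp_nat_mul, filter_mem_eq_inter, univ_inter]

/-- the number of the survivors below the threshold -/
theorem count (ε : ℝ) (hε : 0 < ε) (hε1 : ε ≤ 1) : ∃ w₀ : ℕ, ∀ T a w : ℕ, w₀ ≤ w → ∀ M : ℕ, 1 ≤ M → (∀ p : ℕ, p.Prime → (p ∣ M ↔ p ≤ w)) →
    ∃ K : ℝ, 1 ≤ K ∧ ∀ᶠ N : ℕ in atTop, ∀ q : ℕ,
    (N : ℝ) ≤ q * Real.log N ^ a → q ≤ N → ∀ (Δ : ℝ) (m : ℕ) (c b : ℕ → ℕ), 0 ≤ Δ → Δ ≤ Real.exp (-(9 / 4 * Real.log N)) → (∀ j, b j ≤ T * N) →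
      ∀ (ι : Type) [Fintype ι] (σ : ι → ℕ → ℕ), Fool Δ m (fun j => cls M (c j) (b j) q) σ →
      Pw w * sur M c m ≤ Real.log N ^ 2 - K * Real.log N →
      ((univ.filter fun i => ¬ (N * Real.exp (-(Pw w * sur M c m / Real.log N)) / K ≤ (late N m (σ i)).card ∧
          ((surv N m (σ i)).card : ℝ) ≤ K * (N * Real.exp (-(Pw w * sur M c m / Real.log N))))).card : ℝ) ≤
        ε * Fintype.card ι := by
  classical
  obtain ⟨η, hη⟩ : ∃ η, η = ε / 200 := ⟨_, rfl⟩
  have hη0 : 0 < η := by rw [hη]; positivity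
  have hη1 : η ≤ 1 / 200 := by rw [hη]; linarith
  obtain ⟨w₀, _, hw₀⟩ := sharp η hη0
  refine ⟨w₀, fun T a w hw M hM1 hM => ?_⟩
  have hsh := hw₀ w hw
  have hP := one_le_Pw w
  obtain ⟨δ, hδ⟩ : ∃ δ, δ = η / (8 * Pw w) := ⟨_, rfl⟩
  have hδ0 : 0 < δ := by rw [hδ]; positivity
  have hδη : δ ≤ η / 8 := by
    rw [hδ]
    apply div_le_div_of_nonneg_left hη0.le (by norm_num) (by linarith)
  have hδP : 4 * δ * Pw w = η / 2 := by rw [hδ]; field_simp; norm_num
  obtain ⟨K, hK, h1⟩ := crit_E T a w M hM1 hM 1 δ η (by norm_num) (by norm_num) hδ0 (by linarith) hη0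
    (fun H => by simpa only [one_mul] using hsh H) (by
    rw [one_mul, hδP]
    have := Real.abs_exp_sub_one_sub_id_le (x := η / 2) (by rw [abs_of_pos (by positivity)]; linarith)
    have := (abs_le.1 this).2
    nlinarith)
  obtain ⟨K', hK', h2⟩ := meanN T a w M hM1 hM
  have hMr : (1 : ℝ) ≤ M := by exact_mod_cast hM1
  -- the constants
  obtain ⟨K₁, hK₁⟩ : ∃ K₁, K₁ = Pw w * (3 * K + 2) + 2 * Pw w ^ 2 := ⟨_, rfl⟩
  have hK₁0 : 0 ≤ K₁ := by rw [hK₁]; positivity
  obtain ⟨A₀, hA₀⟩ : ∃ A₀, A₀ = Real.log (400 * M / ε) + 2 * K₁ := ⟨_, rfl⟩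
  have hlog400 : 0 ≤ Real.log (400 * M / ε) := by
    apply Real.log_nonneg
    rw [le_div_iff₀ hε]
    linarith
  have hA₀0 : 0 ≤ A₀ := by rw [hA₀]; positivity
  obtain ⟨K₅, hK₅⟩ : ∃ K₅, K₅ = 1 + A₀ + 16 * M * Real.exp K₁ + 4 / ε * Real.exp (K' + 1) := ⟨_, rfl⟩
  have t1 : 0 ≤ 16 * M * Real.exp K₁ := by positivity
  have t2 : 0 ≤ 4 / ε * Real.exp (K' + 1) := by positivity
  refine ⟨K₅, by rw [hK₅]; linarith, ?_⟩
  filter_upwards [h1 (-A₀), h2, eventually_ge_atTop 3, ev_log (K' + 10), ev_log (Real.log (1000 / ε) * 4)] with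
    N g1 g2 g3 g7 g8 q hq hqN Δ m c b hΔ0 hκ hb ι _ σ hσ hm
  obtain ⟨ρ, hρ, hρr⟩ := rest_at M hM1 (fun j : Fin m => c j)
  obtain ⟨S, hS⟩ : ∃ S : Finset (Fin m), S = univ.filter fun j : Fin m => (ρ + c j).Coprime M := ⟨_, rfl⟩
  have hSc : S.card = sur M c m := by rw [← rest_eq, ← hρr, hS]; rfl
  obtain ⟨L, hL⟩ : ∃ L, L = Real.log (N : ℝ) := ⟨_, rfl⟩
  obtain ⟨Λ, hΛ⟩ : ∃ Λ : ℝ, Λ = Pw w * sur M c m := ⟨_, rfl⟩
  have g1' := g1 q hq hqN m (fun j : Fin m => c j) (fun j : Fin m => b j) (fun j => hb j) ρ hρ S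
    (fun j => by rw [hS, mem_filter]; simp)
  have b1 := g2 q hq hqN Δ m c b hb ι σ hσ (sur M c m) le_rfl
  rw [← hL] at g7 g8 hm b1 hκ g1' ⊢
  rw [hSc, ← hΛ] at g1'
  rw [← hΛ] at hm ⊢
  have hN0 : (0 : ℝ) < N := by exact_mod_cast (by omega : 0 < N)
  have hL10 : 10 ≤ L := by linarith
  have hL0 : 0 < L := by linarith
  have hNL : (N : ℝ) = Real.exp L := by rw [hL, Real.exp_log hN0]
  have hΛ0 : (0 : ℝ) ≤ Λ := by rw [hΛ]; positivity
  have hA₅ : A₀ ≤ K₅ := by rw [hK₅]; linarith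
  have hmA : Λ ≤ L ^ 2 + -A₀ * L := by
    have : A₀ * L ≤ K₅ * L := mul_le_mul_of_nonneg_right hA₅ hL0.le
    linarith
  have hmL : Λ ≤ L ^ 2 := by
    have : 0 ≤ A₀ * L := by positivity
    linarith
  obtain ⟨n, R, a1, a2, a3, a4, aq, a4', a4'', e, a5, a6⟩ := g1' (by rw [one_mul]; exact hmL) hmA
  have hm2 : Λ / L ^ 2 ≤ 1 := by
    rw [div_le_one (by positivity)]
    exact hmL
  have hΛL : Λ / L ≤ L := by
    rw [div_le_iff₀ hL0]
    nlinarith
  have hι : (0 : ℝ) ≤ Fintype.card ι := Nat.cast_nonneg _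
  have hR0 : (0 : ℝ) < R := lt_of_lt_of_le (by positivity) a1
  have hrat : ∀ k < R, ∀ j : Fin m, ((cls M (c j) (b j) q).card : ℝ) / ((cls M (c j) (b j) q).card - (hitc M (c j) (b j) q (n k)).card) ≤
      (if j ∈ S then Real.exp (Pw w / L + K₁ / L ^ 2) else 1) ∧
      (hitc M (c j) (b j) q (n k)).card < (cls M (c j) (b j) q).card := by
    intro k hk j
    rw [hK₁]
    exact rat_all (c := fun j : Fin m => c j) (b := fun j : Fin m => b j) hK (by linarith) aq a4 (a4' k hk) (a4'' k hk) j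
  have hSβ : (S.card : ℝ) * (Pw w / L + K₁ / L ^ 2) ≤ Λ / L + K₁ := by
    have e1 : (S.card : ℝ) * (Pw w / L) = Λ / L := by rw [hSc, hΛ]; ring
    have e2 : (S.card : ℝ) ≤ Λ := by
      rw [hSc, hΛ]
      exact le_mul_of_one_le_left (Nat.cast_nonneg _) hP
    have e3 : (S.card : ℝ) * (K₁ / L ^ 2) ≤ K₁ := by
      rw [mul_div_assoc', div_le_iff₀ (by positivity)]
      nlinarith
    rw [mul_add, e1]
    linarith
  -- the bad sets
  obtain ⟨B1, hB1⟩ : ∃ B1 : Finset ι, B1 = univ.filter fun i => 1 / 2 * (R : ℝ) <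
    |∑ k ∈ range R, ∏ j : Fin m, wt (cls M (c j) (b j) q) (hitc M (c j) (b j) q (n k)) (σ i j) - R| := ⟨_, rfl⟩
  obtain ⟨B3, hB3⟩ : ∃ B3 : Finset ι, B3 = univ.filter fun i => K₅ * (N * Real.exp (-(Λ / L))) < ((surv N m (σ i)).card : ℝ) := ⟨_, rfl⟩
  have hUpos : ∀ j < m, 0 < (cls M (c j) (b j) q).card := fun j hj => a4 ⟨j, hj⟩
  have c1 : (B1.card : ℝ) ≤ ε / 2 * Fintype.card ι := by
    have key := chebN hσ hΔ0 hUpos (fun k j => hitc M (c j) (b j) q (n k)) (fun k j => hitc_sub _ _ _ _ _)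
      (fun k hk j hj => (hrat k hk ⟨j, hj⟩).2) e a5 _ a6 (Real.exp L) (ε / 1000)
      (Real.one_le_exp hL0.le) (fun k hk => by
        refine (prod_rat M q (fun j : Fin m => c j) (fun j : Fin m => b j) (n k) (Pw w / L + K₁ / L ^ 2) S (hrat k hk)).trans ?_
        apply Real.exp_le_exp.2
        refine hSβ.trans ?_
        have e1 : Λ / L ≤ L - A₀ := by
          rw [div_le_iff₀ hL0]
          nlinarith
        have e2 : K₁ ≤ A₀ := by rw [hA₀]; linarith
        linarith) (by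
        have h3 : Real.exp L ^ 2 * Δ ≤ Real.exp L ^ 2 * Real.exp (-(9 / 4 * L)) := mul_le_mul_of_nonneg_left hκ (by positivity)
        refine h3.trans ?_
        rw [← Real.exp_nat_mul, ← Real.exp_add]
        have h5 : ((2 : ℕ) : ℝ) * L + -(9 / 4 * L) ≤ -Real.log (1000 / ε) := by
          push_cast
          linarith
        refine (Real.exp_le_exp.2 h5).trans (le_of_eq ?_)
        rw [Real.exp_neg, Real.exp_log (by positivity), inv_div])
    rw [← hB1] at key
    have e1 : 8 * M * Real.exp (-A₀ + 2 * (Pw w * (3 * K + 2) + 2 * Pw w ^ 2)) = ε / 50 := by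
      have : -A₀ + 2 * (Pw w * (3 * K + 2) + 2 * Pw w ^ 2) = -Real.log (400 * M / ε) := by rw [hA₀, hK₁]; ring
      rw [this, Real.exp_neg, Real.exp_log (by positivity)]
      field_simp
      norm_num
    rw [e1] at key
    have h3 : (B1.card : ℝ) * (1 / 2) ^ 2 * (R : ℝ) ^ 2 ≤ ((4 * η + 2 * η ^ 2 + ε / 50 + 3 * (ε / 1000)) * Fintype.card ι) * (R : ℝ) ^ 2 := by linarith
    have h4 := le_of_mul_le_mul_right h3 (by positivity)
    have e2 : 4 * η + 2 * η ^ 2 + ε / 50 + 3 * (ε / 1000) ≤ ε / 8 := by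
      rw [hη]
      nlinarith
    have e3 : (4 * η + 2 * η ^ 2 + ε / 50 + 3 * (ε / 1000)) * Fintype.card ι ≤ ε / 8 * Fintype.card ι := mul_le_mul_of_nonneg_right e2 hι
    linarith
  have c3 : (B3.card : ℝ) ≤ ε / 4 * Fintype.card ι := by
    have d1 : (B3.card : ℝ) * (K₅ * (N * Real.exp (-(Λ / L)))) ≤ ∑ i, ((surv N m (σ i)).card : ℝ) := by
      rw [← nsmul_eq_mul, ← sum_const, hB3]
      refine le_trans (sum_le_sum (fun i hi => ?_)) (sum_le_sum_of_subset_of_nonneg (filter_subset _ _) fun i _ _ => Nat.cast_nonneg _)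
      exact (mem_filter.1 hi).2.le
    have d2 := d1.trans b1
    have f1 : Real.exp (-(sur M c m * (Pw w / L * (1 - K' / L)))) ≤ Real.exp (K' - Λ / L) := by
      apply Real.exp_le_exp.2
      have e1 : (sur M c m : ℝ) * (Pw w / L * (1 - K' / L)) = Λ / L - K' * (Λ / L ^ 2) := by rw [hΛ]; field_simp
      rw [e1]
      have e2 : K' * (Λ / L ^ 2) ≤ K' := mul_le_of_le_one_right (by linarith) hm2
      linarith
    have f2 : Δ ≤ Real.exp (K' - Λ / L) := by
      refine hκ.trans (Real.exp_le_exp.2 ?_)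
      linarith
    have d3 : (N : ℝ) * (Fintype.card ι * (Real.exp (-(sur M c m * (Pw w / L * (1 - K' / L)))) + Δ)) ≤
        (Real.exp (K' + 1) * Fintype.card ι) * (N * Real.exp (-(Λ / L))) := by
      have e1 : Real.exp (-(sur M c m * (Pw w / L * (1 - K' / L)))) + Δ ≤ Real.exp (K' + 1) * Real.exp (-(Λ / L)) := by
        have e2 : Real.exp (K' + 1) * Real.exp (-(Λ / L)) = Real.exp 1 * Real.exp (K' - Λ / L) := by
          rw [← Real.exp_add, ← Real.exp_add]
          congr 1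
          ring
        have e3 : (2 : ℝ) ≤ Real.exp 1 := by have := Real.add_one_le_exp (1 : ℝ); linarith
        have e4 := Real.exp_pos (K' - Λ / L)
        rw [e2]
        nlinarith
      have e2 := mul_le_mul_of_nonneg_left (mul_le_mul_of_nonneg_left e1 hι) hN0.le
      refine e2.trans (le_of_eq ?_)
      ring
    have d5 := d2.trans d3
    have d6 : (B3.card : ℝ) * K₅ * (N * Real.exp (-(Λ / L))) ≤ (Real.exp (K' + 1) * Fintype.card ι) * (N * Real.exp (-(Λ / L))) := by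
      linarith
    have d7 := le_of_mul_le_mul_right d6 (by positivity)
    have d8 : 4 / ε * Real.exp (K' + 1) ≤ K₅ := by rw [hK₅]; linarith
    have d9 : (B3.card : ℝ) * (4 / ε * Real.exp (K' + 1)) ≤ Real.exp (K' + 1) * Fintype.card ι :=
      (mul_le_mul_of_nonneg_left d8 (Nat.cast_nonneg _)).trans d7
    have d10 : (B3.card : ℝ) * (4 / ε * Real.exp (K' + 1)) = Real.exp (K' + 1) * (B3.card * (4 / ε)) := by ring
    rw [d10] at d9
    have d11 := le_of_mul_le_mul_left d9 (Real.exp_pos _)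
    have d12 : (B3.card : ℝ) * (4 / ε) * (ε / 4) ≤ (Fintype.card ι : ℝ) * (ε / 4) := mul_le_mul_of_nonneg_right d11 (by positivity)
    have d13 : (B3.card : ℝ) * (4 / ε) * (ε / 4) = B3.card := by
      rw [mul_assoc, div_mul_div_comm, mul_comm (4 : ℝ) ε, div_self (mul_ne_zero hε.ne' (by norm_num)), mul_one]
    linarith
  -- every other sequence is good
  have c4 : (univ.filter fun i => ¬ (N * Real.exp (-(Λ / L)) / K₅ ≤ (late N m (σ i)).card ∧
      ((surv N m (σ i)).card : ℝ) ≤ K₅ * (N * Real.exp (-(Λ / L))))) ⊆ B1 ∪ B3 := by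
    intro i hs
    rw [mem_filter] at hs
    obtain ⟨_, hs⟩ := hs
    by_contra hnot
    rw [mem_union, not_or] at hnot
    obtain ⟨n1, n3⟩ := hnot
    rw [hB1, mem_filter, not_and, not_lt] at n1
    rw [hB3, mem_filter, not_and, not_lt] at n3
    apply hs
    refine ⟨?_, n3 (mem_univ i)⟩
    have n1' := (abs_le.1 (n1 (mem_univ i))).1
    have f1 := Z_le M q (fun j : Fin m => c j) (fun j : Fin m => b j) n R (Pw w / L + K₁ / L ^ 2) S hrat a3 (late N m (σ i))
      (fun j : Fin m => σ i j) (fun j => hσ.1 i j j.2) (fun k hk hp => by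
        obtain ⟨x1, x2, x3⟩ := a2 k hk
        unfold late surv
        rw [mem_filter, mem_filter, mem_Icc]
        exact ⟨⟨⟨x2, x3⟩, fun j hj => hp ⟨j, hj⟩⟩, x1⟩)
    have f3 := Real.exp_le_exp.2 hSβ
    have f4 : (0 : ℝ) ≤ (late N m (σ i)).card := Nat.cast_nonneg _
    have f5 : (N : ℝ) / (16 * M) ≤ ((late N m (σ i)).card : ℝ) * Real.exp (Λ / L + K₁) := by
      have e1 := f1.trans (mul_le_mul_of_nonneg_left f3 f4)
      have e2 : (N : ℝ) / (16 * M) = (N / (8 * M)) / 2 := by field_simp; norm_num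
      linarith
    have f6 : 16 * M * Real.exp K₁ ≤ K₅ := by rw [hK₅]; linarith
    have f7 : (N : ℝ) ≤ (16 * M * Real.exp K₁) * ((late N m (σ i)).card * Real.exp (Λ / L)) := by
      rw [div_le_iff₀ (by positivity), Real.exp_add] at f5
      linarith
    have f8 : (N : ℝ) ≤ K₅ * ((late N m (σ i)).card * Real.exp (Λ / L)) :=
      f7.trans (mul_le_mul_of_nonneg_right f6 (mul_nonneg f4 (Real.exp_pos _).le))
    have hK₅0 : 0 < K₅ := by rw [hK₅]; positivity
    rw [div_le_iff₀ hK₅0, Real.exp_neg, mul_inv_le_iff₀ (Real.exp_pos _)]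
    linarith
  have c5 : ((univ.filter fun i => ¬ (N * Real.exp (-(Λ / L)) / K₅ ≤ (late N m (σ i)).card ∧
      ((surv N m (σ i)).card : ℝ) ≤ K₅ * (N * Real.exp (-(Λ / L))))).card : ℝ) ≤ B1.card + B3.card := by
    exact_mod_cast (card_le_card c4).trans (card_union_le B1 B3)
  refine c5.trans ?_
  have : 0 ≤ ε / 4 * Fintype.card ι := by positivity
  linarith

end Run7.h251.CN
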