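import Pool.Agent.Run7.h251.NI.Two

/-!
# The critical length, part 1: one coordinate with errors `O(1 / L²)`

The computation is that of `Pool.Agent.Run7.h364.CW.Coord` (helper364), for the shifts in a residue class.
-/

set_option autoImplicit false

namespace Run7.h251.CN

open Finset Filter
open Pool.Agent.Run7.h931.RS (Pw Fw one_le_Pw one_le_Fw wt wt_nonneg)
open Pool.Agent.Run7.h931.RL (Cr cls hitc hitc_sub hitc_card cls_card)
open Run7.h251.KW (wt_eq)

/-- the size of a weight constant, with the error `O(1 / L²)` -/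
lemma ratio {w M : ℕ} {L δ K : ℝ} {q c b n : ℕ} (h : Cr w M L δ K q c b n) (hK : 0 ≤ K) (hL2 : 2 ≤ L)
    (hqM : (M : ℝ) * L ≤ q) :
    ((cls M c b q).card : ℝ) / ((cls M c b q).card - (hitc M c b q n).card) ≤
      Real.exp (Pw w / L + (Pw w * (3 * K + 2) + 2 * Pw w ^ 2) / L ^ 2) := by
  classical
  have hδ := h.hδ
  have hδ1 := h.hδ1
  have hL := h.hL
  have hP := one_le_Pw w
  have hq : (0 : ℝ) < q := by exact_mod_cast h.hq
  have hM0 : (0 : ℝ) < M := by exact_mod_cast h.hM1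
  obtain ⟨h4, _, h5, _, h8⟩ := h.bds
  have h3 := h.theta
  have h6 := h.hi
  rw [← hitc_card, h.qM] at h6
  have h7 := (abs_le.1 (cls_card M c b q h.hM1)).1
  obtain ⟨U, hU⟩ : ∃ U : ℝ, U = (cls M c b q).card := ⟨_, rfl⟩
  obtain ⟨A, hA⟩ : ∃ A : ℝ, A = (hitc M c b q n).card := ⟨_, rfl⟩
  obtain ⟨X, hX⟩ : ∃ X : ℝ, X = q / M := ⟨_, rfl⟩
  simp only [← hU, ← hA, ← hX] at h3 h4 h5 h6 h7 h8 ⊢
  have hXL : 1 ≤ X * (1 / L) := by
    rw [hX, div_mul_div_comm, mul_one, le_div_iff₀ (by positivity)]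
    linarith
  have hA0 : 0 ≤ A := by rw [hA]; exact Nat.cast_nonneg _
  have hU0 : 0 < U := lt_of_lt_of_le (mul_pos (by linarith) h8) h5
  have hAU : A ≤ U / 16 := by nlinarith
  have hUA : 0 < U - A := by linarith
  have h9 : U / (U - A) = A / (U - A) + 1 := by field_simp; ring
  rw [h9]
  refine (Real.add_one_le_exp _).trans (Real.exp_le_exp.2 ?_)
  have a1 : X * (1 - 1 / L) ≤ U := by
    have : X * (1 - 1 / L) = X - X * (1 / L) := by ring
    linarith
  have a2 : A / U ≤ (Pw w / L) * (1 + (3 * K + 2) / L) := by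
    rw [div_le_iff₀ hU0]
    have f1 : (Pw w / L) * (1 + (3 * K + 2) / L) * (X * (1 - 1 / L)) ≤ (Pw w / L) * (1 + (3 * K + 2) / L) * U :=
      mul_le_mul_of_nonneg_left a1 (by positivity)
    have f2 : (Pw w / L) * (1 + (3 * K + 2) / L) * (X * (1 - 1 / L)) =
        (X * (Pw w / L)) * ((1 + (3 * K + 2) / L) * (1 - 1 / L)) := by ring
    have f3 : 1 + K / L ≤ (1 + (3 * K + 2) / L) * (1 - 1 / L) := by
      have g1 : (1 + (3 * K + 2) / L) * (1 - 1 / L) - (1 + K / L) = ((2 * K + 1) * L - (3 * K + 2)) / L ^ 2 := by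
        field_simp
        ring
      have g2 : 0 ≤ ((2 * K + 1) * L - (3 * K + 2)) / L ^ 2 := div_nonneg (by nlinarith) (by positivity)
      linarith
    have f4 : X * Pw w / L + K * (X * Pw w / L ^ 2) = (X * (Pw w / L)) * (1 + K / L) := by field_simp
    have f5 : (X * (Pw w / L)) * (1 + K / L) ≤ (X * (Pw w / L)) * ((1 + (3 * K + 2) / L) * (1 - 1 / L)) :=
      mul_le_mul_of_nonneg_left f3 (by positivity)
    linarith
  have a3 : A / U ≤ 17 / 15 * (Pw w / L) := by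
    rw [div_le_iff₀ hU0]
    have f1 : A ≤ 17 / 16 * (X * (Pw w / L)) := by
      have : (1 + δ / 4) * (X * (Pw w / L)) ≤ 17 / 16 * (X * (Pw w / L)) := mul_le_mul_of_nonneg_right (by linarith) (by positivity)
      linarith
    have f2 : 15 / 16 * X ≤ U := by
      have : 15 / 16 * X ≤ (1 - δ / 4) * X := mul_le_mul_of_nonneg_right (by linarith) h8.le
      linarith
    have f3 : 17 / 15 * (Pw w / L) * (15 / 16 * X) ≤ 17 / 15 * (Pw w / L) * U :=
      mul_le_mul_of_nonneg_left f2 (by positivity)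
    have f4 : 17 / 15 * (Pw w / L) * (15 / 16 * X) = 17 / 16 * (X * (Pw w / L)) := by
      ring
    linarith
  have a4 : A / (U - A) ≤ A / U + 16 / 15 * (A / U) ^ 2 := by
    have f1 : A / (U - A) = A / U + (A / U) * (A / (U - A)) := by field_simp; ring
    have f2 : A / (U - A) ≤ 16 / 15 * (A / U) := by
      rw [div_le_iff₀ hUA]
      have g1 : 16 / 15 * (A / U) * (U - A) = 16 / 15 * (A - A * (A / U)) := by field_simp
      rw [g1]
      have g2 : A / U ≤ 1 / 16 := by rw [div_le_iff₀ hU0]; linarith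
      nlinarith
    have f3 : (A / U) * (A / (U - A)) ≤ (A / U) * (16 / 15 * (A / U)) := mul_le_mul_of_nonneg_left f2 (by positivity)
    rw [f1]
    nlinarith
  have a5 : (A / U) ^ 2 ≤ (17 / 15 * (Pw w / L)) ^ 2 := pow_le_pow_left₀ (by positivity) a3 2
  have a6 : (Pw w / L) * (1 + (3 * K + 2) / L) + 16 / 15 * (17 / 15 * (Pw w / L)) ^ 2 ≤
      Pw w / L + (Pw w * (3 * K + 2) + 2 * Pw w ^ 2) / L ^ 2 := by
    have f1 : (Pw w / L) * (1 + (3 * K + 2) / L) = Pw w / L + Pw w * (3 * K + 2) / L ^ 2 := by field_simp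
    have f2 : 16 / 15 * (17 / 15 * (Pw w / L)) ^ 2 = (16 / 15 * (17 / 15) ^ 2) * (Pw w ^ 2 / L ^ 2) := by field_simp
    have f3 : (Pw w * (3 * K + 2) + 2 * Pw w ^ 2) / L ^ 2 = Pw w * (3 * K + 2) / L ^ 2 + 2 * (Pw w ^ 2 / L ^ 2) := by ring
    have f4 : 0 ≤ Pw w ^ 2 / L ^ 2 := by positivity
    rw [f1, f2, f3]
    nlinarith
  linarith

/-- the square mean of one weight, with the error `O(1 / L²)` -/
lemma diagR {w M : ℕ} {L δ K : ℝ} {q c b n : ℕ} (h : Cr w M L δ K q c b n) (hK : 0 ≤ K) (hL2 : 2 ≤ L)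
    (hqM : (M : ℝ) * L ≤ q) :
    ∑ v ∈ cls M c b q, wt (cls M c b q) (hitc M c b q n) v * wt (cls M c b q) (hitc M c b q n) v ≤
      Real.exp (Pw w / L + (Pw w * (3 * K + 2) + 2 * Pw w ^ 2) / L ^ 2) * (cls M c b q).card := by
  classical
  have h1 := ratio h hK hL2 hqM
  have h3 := h.theta
  have h2 : (0 : ℝ) < (cls M c b q).card := by exact_mod_cast h.upos
  have hδ := h.hδ
  have hδ1 := h.hδ1
  obtain ⟨U, hU⟩ : ∃ U : ℝ, U = (cls M c b q).card := ⟨_, rfl⟩
  obtain ⟨A, hA⟩ : ∃ A : ℝ, A = (hitc M c b q n).card := ⟨_, rfl⟩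
  have e1 : ∑ v ∈ cls M c b q, wt (cls M c b q) (hitc M c b q n) v * wt (cls M c b q) (hitc M c b q n) v =
      (U / (U - A)) ^ 2 * (U - A) := by
    have e2 : ∀ v ∈ cls M c b q, wt (cls M c b q) (hitc M c b q n) v * wt (cls M c b q) (hitc M c b q n) v =
        (U / (U - A)) ^ 2 * (if v ∈ hitc M c b q n then 0 else 1) := by
      intro v hv
      rw [wt_eq _ _ v hv, ← hU, ← hA]
      split_ifs <;> ring
    rw [sum_congr rfl e2, ← mul_sum]
    congr 1
    have e3 : ∀ v ∈ cls M c b q, (if v ∈ hitc M c b q n then (0 : ℝ) else 1) = 1 - (if v ∈ hitc M c b q n then 1 else 0) := by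
      intro v _
      split_ifs <;> ring
    rw [sum_congr rfl e3, sum_sub_distrib, sum_ite_mem, inter_eq_right.2 (hitc_sub M c b q n), sum_const, sum_const, nsmul_eq_mul,
      nsmul_eq_mul, mul_one, mul_one, hU, hA]
  rw [e1]
  rw [← hU, ← hA] at h1
  rw [← hU, ← hA] at h3
  rw [← hU] at h2 ⊢
  have hUA : 0 < U - A := by nlinarith
  have e4 : (U / (U - A)) ^ 2 * (U - A) = U / (U - A) * U := by field_simp
  rw [e4]
  exact mul_le_mul_of_nonneg_right h1 h2.le

end Run7.h251.CN
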