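import Pool.Agent.Run7.h251.CN.Count
import Pool.Agent.Run7.h251.NI.Law

/-!
# The critical length, part 5: above the threshold, at the threshold, the longest run
-/

set_option autoImplicit false

namespace Run7.h251.CN

open Finset Filter
open Pool.Agent.Run7.h931.RS (Pw Fw one_le_Pw one_le_Fw wt wt_nonneg ev_log moments)
open Pool.Agent.Run7.h931.RL (Cr cls hitc hitc_sub sur sur_le sur_at lf lf_add lft_eq rest rest_at rest_eq sur_mono sur_succ
  sur_zero sur_id)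
open Run7.h251.KW (surv FreeS freeS_iff FreeS.mono runS)
open Run7.h251.NI (Fool meanN)

/-- above the threshold there are no survivors -/
theorem above (T a w M : ℕ) (hM1 : 1 ≤ M) (hM : ∀ p : ℕ, p.Prime → (p ∣ M ↔ p ≤ w)) (ε : ℝ) (hε : 0 < ε) (hε1 : ε ≤ 1) :
    ∃ K : ℝ, 1 ≤ K ∧ ∀ᶠ N : ℕ in atTop, ∀ q : ℕ,
    (N : ℝ) ≤ q * Real.log N ^ a → q ≤ N → ∀ (Δ : ℝ) (m : ℕ) (c b : ℕ → ℕ), Δ ≤ Real.exp (-(9 / 4 * Real.log N)) → (∀ j, b j ≤ T * N) →
      ∀ (ι : Type) [Fintype ι] (σ : ι → ℕ → ℕ), Fool Δ m (fun j => cls M (c j) (b j) q) σ →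
      Real.log N ^ 2 + K * Real.log N ≤ Pw w * sur M c m →
      ((univ.filter fun i => (surv N m (σ i)).Nonempty).card : ℝ) ≤ ε * Fintype.card ι := by
  classical
  obtain ⟨K', hK', h1⟩ := meanN T a w M hM1 hM
  have hP := one_le_Pw w
  have hlog : 0 ≤ Real.log (2 / ε) := by
    apply Real.log_nonneg
    rw [le_div_iff₀ hε]
    linarith
  obtain ⟨K, hK⟩ : ∃ K, K = 2 * K' + 2 * Real.log (2 / ε) := ⟨_, rfl⟩
  refine ⟨K, by rw [hK]; linarith, ?_⟩
  filter_upwards [h1, ev_log (2 * K' + 1), ev_log (Real.log (2 / ε)), eventually_ge_atTop 3] with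
    N g1 g2 g3 g4 q hq hqN Δ m c b hκ hb ι _ σ hσ hm
  obtain ⟨L, hL⟩ : ∃ L, L = Real.log (N : ℝ) := ⟨_, rfl⟩
  have hN0 : (0 : ℝ) < N := by exact_mod_cast (by omega : 0 < N)
  have k1 := g1 q hq hqN Δ m c b hb ι σ hσ (sur M c m) le_rfl
  rw [← hL] at g2 g3 hm hκ k1
  have hL0 : 0 < L := by linarith
  have hι : (0 : ℝ) ≤ Fintype.card ι := Nat.cast_nonneg _
  have k2 : ((univ.filter fun i => (surv N m (σ i)).Nonempty).card : ℝ) ≤ ∑ i, ((surv N m (σ i)).card : ℝ) := by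
    rw [card_filter]
    push_cast
    apply sum_le_sum
    intro i _
    split_ifs with h
    · exact_mod_cast h.card_pos
    · exact Nat.cast_nonneg _
  refine k2.trans (k1.trans ?_)
  have e0 : (N : ℝ) = Real.exp L := by rw [hL, Real.exp_log hN0]
  have f1 : -(sur M c m * (Pw w / L * (1 - K' / L))) ≤ -L - Real.log (2 / ε) := by
    have h0 : 0 ≤ (L - K') / L ^ 2 := div_nonneg (by linarith) (by positivity)
    have h2 := mul_le_mul_of_nonneg_right hm h0
    have h3 : Pw w * sur M c m * ((L - K') / L ^ 2) = sur M c m * (Pw w / L * (1 - K' / L)) := by field_simp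
    have h4 : (L ^ 2 + K * L) * ((L - K') / L ^ 2) = (L + K) * (1 - K' / L) := by field_simp
    rw [h3, h4] at h2
    have h5 : (L + K) * (1 - K' / L) = L + K - K' - K * (K' / L) := by field_simp; ring
    have h6 : K' / L ≤ 1 / 2 := by rw [div_le_iff₀ hL0]; linarith
    have hK0 : 0 ≤ K := by rw [hK]; linarith
    have h7 : K * (K' / L) ≤ K * (1 / 2) := mul_le_mul_of_nonneg_left h6 hK0
    rw [h5] at h2
    linarith
  have f2 : Real.exp (-(sur M c m * (Pw w / L * (1 - K' / L)))) ≤ ε / 2 * Real.exp (-L) := by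
    refine (Real.exp_le_exp.2 f1).trans (le_of_eq ?_)
    rw [Real.exp_sub, Real.exp_log (by positivity)]
    field_simp
  have f3 : Δ ≤ ε / 2 * Real.exp (-L) := by
    refine hκ.trans ?_
    have e1 : Real.exp (-(9 / 4 * L)) ≤ Real.exp (-L - Real.log (2 / ε)) := Real.exp_le_exp.2 (by linarith)
    refine e1.trans (le_of_eq ?_)
    rw [Real.exp_sub, Real.exp_log (by positivity)]
    field_simp
  have f4 := mul_le_mul_of_nonneg_left (mul_le_mul_of_nonneg_left (add_le_add f2 f3) hι) hN0.le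
  refine f4.trans (le_of_eq ?_)
  have f5 : (N : ℝ) * Real.exp (-L) = 1 := by rw [e0, ← Real.exp_add, add_neg_cancel, Real.exp_zero]
  calc (N : ℝ) * (Fintype.card ι * (ε / 2 * Real.exp (-L) + ε / 2 * Real.exp (-L))) =
      ε * Fintype.card ι * (N * Real.exp (-L)) := by ring
    _ = _ := by rw [f5, mul_one]

lemma Fw_le (w h : ℕ) : Fw w h ≤ Fw 0 h := by
  classical
  have hone : ∀ (T : Finset ℕ), T ⊆ h.primeFactors → (1 : ℝ) ≤ ∏ p ∈ T, ((p : ℝ) / ((p : ℝ) - 1)) := by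
    intro T hT
    apply Finset.prod_induction _ (fun x : ℝ => 1 ≤ x) (fun x y hx hy => one_le_mul_of_one_le_of_one_le hx hy) le_rfl
    intro p hp
    have h1 := (Nat.prime_of_mem_primeFactors (hT hp)).two_le
    have h2 : (2 : ℝ) ≤ p := by exact_mod_cast h1
    rw [le_div_iff₀ (by linarith)]
    linarith
  have h0 : Fw 0 h = ∏ p ∈ h.primeFactors, ((p : ℝ) / ((p : ℝ) - 1)) := by
    unfold Fw
    rw [filter_true_of_mem]
    intro p hp
    exact (Nat.prime_of_mem_primeFactors hp).pos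
  rw [h0, ← prod_filter_mul_prod_filter_not h.primeFactors (fun p => w < p)]
  have h1 : Fw w h = ∏ p ∈ h.primeFactors.filter (fun p => w < p), ((p : ℝ) / ((p : ℝ) - 1)) := rfl
  rw [← h1]
  apply le_mul_of_one_le_right
  · have := one_le_Fw w h
    linarith
  · exact hone _ (filter_subset _ _)

/-- at the threshold there are survivors with positive probability -/
theorem positive (T a w M : ℕ) (hM1 : 1 ≤ M) (hM : ∀ p : ℕ, p.Prime → (p ∣ M ↔ p ≤ w)) (A : ℝ) :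
    ∃ γ : ℝ, 0 < γ ∧ ∀ᶠ N : ℕ in atTop, ∀ q : ℕ,
    (N : ℝ) ≤ q * Real.log N ^ a → q ≤ N → ∀ (Δ : ℝ) (m : ℕ) (c b : ℕ → ℕ), 0 ≤ Δ → Δ ≤ Real.exp (-(9 / 4 * Real.log N)) → (∀ j, b j ≤ T * N) →
      ∀ (ι : Type) [Fintype ι] (σ : ι → ℕ → ℕ), Fool Δ m (fun j => cls M (c j) (b j) q) σ →
      Pw w * sur M c m ≤ Real.log N ^ 2 + A * Real.log N →
      γ * Fintype.card ι ≤ ((univ.filter fun i => (late N m (σ i)).Nonempty).card : ℝ) := by
  classical
  have hP := one_le_Pw w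
  obtain ⟨Km, hKm, h3⟩ := moments (4 * Pw w) (by positivity) 1
  obtain ⟨K, hK, h1⟩ := crit_E T a w M hM1 hM 2 (1 / (16 * Pw w)) Km (by norm_num) le_rfl (by positivity)
    (by rw [div_le_div_iff₀ (by positivity) (by norm_num)]; linarith) (by linarith)
    (fun H => by
      refine le_trans (sum_le_sum fun h _ => ?_) (h3 H)
      rw [pow_one]
      have e0 := Fw_le w h
      have e1 : Real.exp (2 * (2 * Pw w * (Fw w h - 1))) ≤ Real.exp (4 * Pw w * Fw 0 h) := by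
        apply Real.exp_le_exp.2
        have : Pw w * Fw w h ≤ Pw w * Fw 0 h := mul_le_mul_of_nonneg_left e0 (by linarith)
        linarith
      linarith)
    (by
      have e1 : (2 : ℝ) * (4 * (1 / (16 * Pw w)) * Pw w) = 1 / 2 := by field_simp; norm_num
      rw [e1]
      have := Real.abs_exp_sub_one_sub_id_le (x := (1 / 2 : ℝ)) (by rw [abs_of_pos (by norm_num)]; norm_num)
      have := (abs_le.1 this).2
      linarith)
  obtain ⟨K₁, hK₁⟩ : ∃ K₁, K₁ = Pw w * (3 * K + 2) + 2 * Pw w ^ 2 := ⟨_, rfl⟩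
  have hK₁0 : 0 ≤ K₁ := by rw [hK₁]; positivity
  obtain ⟨C, hC⟩ : ∃ C, C = 2 + (4 * Km + 2 * Km ^ 2 + 8 * M * Real.exp (A + 2 * (Pw w * (3 * K + 2) + 2 * Pw w ^ 2))) := ⟨_, rfl⟩
  have hC0 : 0 < C := by rw [hC]; positivity
  have hMr : (1 : ℝ) ≤ M := by exact_mod_cast hM1
  refine ⟨1 / (4 * C), by positivity, ?_⟩
  filter_upwards [h1 A, ev_log (|A| + 2), eventually_ge_atTop 3, ev_log (8 * (|A| + 2 * K₁) + 8)] with
    N g1 g2 g3 g4 q hq hqN Δ m c b hΔ0 hκ hb ι _ σ hσ hm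
  obtain ⟨ρ, hρ, hρr⟩ := rest_at M hM1 (fun j : Fin m => c j)
  obtain ⟨S, hS⟩ : ∃ S : Finset (Fin m), S = univ.filter fun j : Fin m => (ρ + c j).Coprime M := ⟨_, rfl⟩
  have hSc : S.card = sur M c m := by rw [← rest_eq, ← hρr, hS]; rfl
  obtain ⟨L, hL⟩ : ∃ L, L = Real.log (N : ℝ) := ⟨_, rfl⟩
  obtain ⟨Λ, hΛ⟩ : ∃ Λ : ℝ, Λ = Pw w * sur M c m := ⟨_, rfl⟩
  have g1' := g1 q hq hqN m (fun j : Fin m => c j) (fun j : Fin m => b j) (fun j => hb j) ρ hρ S
    (fun j => by rw [hS, mem_filter]; simp)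
  rw [← hL] at g2 g4 hm hκ g1'
  rw [hSc, ← hΛ] at g1'
  rw [← hΛ] at hm
  have hA := le_abs_self A
  have hA0 := abs_nonneg A
  have hN0 : (0 : ℝ) < N := by exact_mod_cast (by omega : 0 < N)
  have hL2 : 2 ≤ L := by linarith
  have hL0 : 0 < L := by linarith
  have hm2 : Λ ≤ 2 * L ^ 2 := by nlinarith
  obtain ⟨n, R, a1, a2, a3, a4, aq, a4', a4'', e, a5, a6⟩ := g1' hm2 hm
  have hR0 : (0 : ℝ) < R := lt_of_lt_of_le (by positivity) a1
  have hrat : ∀ k < R, ∀ j : Fin m, ((cls M (c j) (b j) q).card : ℝ) / ((cls M (c j) (b j) q).card - (hitc M (c j) (b j) q (n k)).card) ≤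
      (if j ∈ S then Real.exp (Pw w / L + K₁ / L ^ 2) else 1) ∧
      (hitc M (c j) (b j) q (n k)).card < (cls M (c j) (b j) q).card := by
    intro k hk j
    rw [hK₁]
    exact rat_all (c := fun j : Fin m => c j) (b := fun j : Fin m => b j) hK hL2 aq a4 (a4' k hk) (a4'' k hk) j
  have hSβ : (S.card : ℝ) * (Pw w / L + K₁ / L ^ 2) ≤ L + |A| + 2 * K₁ := by
    have e1 : (S.card : ℝ) * (Pw w / L) ≤ L + |A| := by
      have : (S.card : ℝ) * (Pw w / L) = Λ / L := by rw [hSc, hΛ]; ring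
      rw [this, div_le_iff₀ hL0]
      nlinarith
    have e2 : (S.card : ℝ) ≤ Λ := by
      rw [hSc, hΛ]
      exact le_mul_of_one_le_left (Nat.cast_nonneg _) hP
    have e3 : (S.card : ℝ) * (K₁ / L ^ 2) ≤ 2 * K₁ := by
      rw [mul_div_assoc', div_le_iff₀ (by positivity)]
      nlinarith
    rw [mul_add]
    linarith
  have hUpos : ∀ j < m, 0 < (cls M (c j) (b j) q).card := fun j hj => a4 ⟨j, hj⟩
  have key := momN hσ hΔ0 hUpos (fun k j => hitc M (c j) (b j) q (n k)) (fun k j => hitc_sub _ _ _ _ _)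
    (fun k hk j hj => (hrat k hk ⟨j, hj⟩).2) e a5 _ a6 (Real.exp (L + |A| + 2 * K₁)) (1 / 2)
    (Real.one_le_exp (by linarith)) (fun k hk =>
      (prod_rat M q (fun j : Fin m => c j) (fun j : Fin m => b j) (n k) (Pw w / L + K₁ / L ^ 2) S (hrat k hk)).trans
        (Real.exp_le_exp.2 hSβ)) (by
      have h3 : Real.exp (L + |A| + 2 * K₁) ^ 2 * Δ ≤ Real.exp (L + |A| + 2 * K₁) ^ 2 * Real.exp (-(9 / 4 * L)) :=
        mul_le_mul_of_nonneg_left hκ (by positivity)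
      refine h3.trans ?_
      rw [← Real.exp_nat_mul, ← Real.exp_add]
      have h5 : ((2 : ℕ) : ℝ) * (L + |A| + 2 * K₁) + -(9 / 4 * L) ≤ -1 := by
        push_cast
        linarith
      refine (Real.exp_le_exp.2 h5).trans ?_
      rw [Real.exp_neg]
      have h6 : (2 : ℝ) ≤ Real.exp 1 := by have := Real.add_one_le_exp (1 : ℝ); linarith
      rw [inv_eq_one_div]
      exact one_div_le_one_div_of_le (by norm_num) h6)
  obtain ⟨Z, hZ⟩ : ∃ Z : ι → ℝ, Z = fun i => ∑ k ∈ range R, ∏ j : Fin m, wt (cls M (c j) (b j) q) (hitc M (c j) (b j) q (n k)) (σ i j) :=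
    ⟨_, rfl⟩
  have hZ' : ∀ i, ∑ k ∈ range R, ∏ j : Fin m, wt (cls M (c j) (b j) q) (hitc M (c j) (b j) q (n k)) (σ i j) = Z i := fun i => by rw [hZ]
  simp only [hZ'] at key
  have key2 := pzN Z R (1 / 2) C hR0 le_rfl hC0 key.1 (by
    refine key.2.trans ?_
    apply mul_le_mul_of_nonneg_left _ (Nat.cast_nonneg _)
    have : 0 ≤ (R : ℝ) ^ 2 := by positivity
    rw [hC]
    nlinarith)
  refine key2.trans ?_
  have : (univ.filter fun i => Z i ≠ 0) ⊆ univ.filter fun i => (late N m (σ i)).Nonempty := by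
    intro i hi
    rw [mem_filter] at hi ⊢
    refine ⟨mem_univ i, ?_⟩
    by_contra hne
    rw [not_nonempty_iff_eq_empty] at hne
    apply hi.2
    have f1 := Z_le M q (fun j : Fin m => c j) (fun j : Fin m => b j) n R (Pw w / L + K₁ / L ^ 2) S hrat a3 (late N m (σ i))
      (fun j : Fin m => σ i j) (fun j => hσ.1 i j j.2) (fun k hk hp => by
        obtain ⟨x1, x2, x3⟩ := a2 k hk
        unfold late surv
        rw [mem_filter, mem_filter, mem_Icc]
        exact ⟨⟨⟨x2, x3⟩, fun j hj => hp ⟨j, hj⟩⟩, x1⟩)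
    rw [hne, card_empty, Nat.cast_zero, zero_mul] at f1
    apply le_antisymm
    · rw [← hZ']
      exact f1
    · rw [← hZ']
      exact sum_nonneg fun k _ => prod_nonneg fun j _ => wt_nonneg _ _ (hitc_sub _ _ _ _ _) _
  exact_mod_cast card_le_card this

end Run7.h251.CN
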