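import Pool.Agent.Run7.h251.CN.Crit

/-!
# The critical length, part 3: first and second moments of the weighted number of the survivors
-/

set_option autoImplicit false

namespace Run7.h251.CN

open Finset
open Pool.Agent.Run7.h931.RS (wt wt_nonneg wt_pair)
open Run7.h251.KW (wt_eq ind_prod wt_two one_id)
open Run7.h251.NI (Fool)

theorem momN {δ : ℝ} {m R : ℕ} {U : ℕ → Finset ℕ} {ι : Type*} [Fintype ι] {σ : ι → ℕ → ℕ} (hσ : Fool δ m U σ) (hδ0 : 0 ≤ δ)
    (hU : ∀ j < m, 0 < (U j).card) (A : ℕ → ℕ → Finset ℕ) (hA : ∀ k j, A k j ⊆ U j)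
    (hlt : ∀ k < R, ∀ j < m, (A k j).card < (U j).card) (e : ℕ → ℕ → ℝ)
    (htwo : ∀ k < R, ∀ k' < R, ∏ j : Fin m, ∑ v ∈ U j, wt (U j) (A k j) v * wt (U j) (A k' j) v ≤
      e k k' * ∏ j : Fin m, ((U j).card : ℝ)) (η : ℝ)
    (he : ∑ k ∈ range R, ∑ k' ∈ range R, e k k' ≤ (1 + η) * (R : ℝ) ^ 2) (C τ : ℝ) (hC1 : 1 ≤ C)
    (hC : ∀ k < R, ∏ j : Fin m, ((U j).card : ℝ) / ((U j).card - (A k j).card) ≤ C)
    (hτ : C ^ 2 * δ ≤ τ) :
    Fintype.card ι * (1 - τ) * R ≤ ∑ i, ∑ k ∈ range R, ∏ j : Fin m, wt (U j) (A k j) (σ i j) ∧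
    ∑ i, (∑ k ∈ range R, ∏ j : Fin m, wt (U j) (A k j) (σ i j)) ^ 2 ≤ Fintype.card ι * ((1 + η) * (R : ℝ) ^ 2 + τ * (R : ℝ) ^ 2) := by
  classical
  obtain ⟨ck, hck⟩ : ∃ ck : ℕ → ℝ, ck = fun k => ∏ j : Fin m, ((U j).card : ℝ) / ((U j).card - (A k j).card) := ⟨_, rfl⟩
  have hck' : ∀ k, ∏ j : Fin m, ((U j).card : ℝ) / ((U j).card - (A k j).card) = ck k := fun k => by rw [hck]
  have hUr : ∀ j : Fin m, (0 : ℝ) < (U j).card := fun j => by exact_mod_cast hU j j.2
  have hsub : ∀ k < R, ∀ j : Fin m, (0 : ℝ) < (U j).card - (A k j).card := fun k hk j => by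
    have : ((A k j).card : ℝ) < (U j).card := by exact_mod_cast hlt k hk j j.2
    linarith
  have hc0 : ∀ k < R, 0 ≤ ck k := fun k hk => by
    rw [← hck']
    exact prod_nonneg fun j _ => div_nonneg (Nat.cast_nonneg _) (hsub k hk j).le
  have hcC : ∀ k < R, ck k ≤ C := fun k hk => by rw [← hck']; exact hC k hk
  obtain ⟨nh, hnh⟩ : ∃ nh : (ℕ → Finset ℕ) → ℝ, nh = fun B => ((univ.filter fun i => ∀ j < m, σ i j ∉ B j).card : ℝ) := ⟨_, rfl⟩
  have hι : (0 : ℝ) ≤ Fintype.card ι := Nat.cast_nonneg _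
  obtain ⟨I, hI⟩ : ∃ I : ℝ, I = Fintype.card ι := ⟨_, rfl⟩
  rw [← hI] at hι ⊢
  -- one weight
  have hw : ∀ k, ∀ i, ∏ j : Fin m, wt (U j) (A k j) (σ i j) = ck k * (if (∀ j < m, σ i j ∉ A k j) then 1 else 0) := by
    intro k i
    rw [← ind_prod (m := m) (fun j => σ i j ∈ A k j), ← hck', ← prod_mul_distrib]
    apply prod_congr rfl
    intro j _
    exact wt_eq (U j) (A k j) (σ i j) (hσ.1 i j j.2)
  have hcount : ∀ B : ℕ → Finset ℕ, ∑ i, (if (∀ j < m, σ i j ∉ B j) then (1 : ℝ) else 0) = nh B := by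
    intro B
    rw [hnh]
    simp only
    rw [card_filter]
    push_cast
    rfl
  -- first moments
  have hone : ∀ k < R, I * (1 - τ) ≤ ck k * nh (A k) := by
    intro k hk
    have h1 := hσ.2 (A k) (fun j _ => hA k j)
    have h2 : ck k * ∏ j ∈ range m, (1 - (A k j).card / (U j).card : ℝ) = 1 := by
      rw [Finset.prod_range, ← hck', ← prod_mul_distrib]
      apply prod_eq_one
      intro j _
      exact one_id _ _ (hUr j) (hsub k hk j)
    have h3 := (abs_le.1 h1).1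
    rw [← hI] at h3
    have h5 : ((univ.filter fun i => ∀ j < m, σ i j ∉ A k j).card : ℝ) = nh (A k) := by rw [hnh]
    rw [h5] at h3
    have h6 := mul_le_mul_of_nonneg_left (show I * ∏ j ∈ range m, (1 - (A k j).card / (U j).card : ℝ) -
      I * δ ≤ nh (A k) by linarith) (hc0 k hk)
    have h7 : ck k * (I * ∏ j ∈ range m, (1 - (A k j).card / (U j).card : ℝ) - I * δ) =
        I * (ck k * ∏ j ∈ range m, (1 - (A k j).card / (U j).card : ℝ)) - I * (ck k * δ) := by ring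
    rw [h7, h2] at h6
    have h8 : ck k * δ ≤ τ := by
      refine le_trans ?_ hτ
      apply mul_le_mul_of_nonneg_right _ hδ0
      have := hcC k hk
      nlinarith
    have h9 := mul_le_mul_of_nonneg_left h8 hι
    linarith
  -- second moments
  have htwo' : ∀ k < R, ∀ k' < R, ck k * ck k' * nh (fun j => A k j ∪ A k' j) ≤ I * (e k k' + τ) := by
    intro k hk k' hk'
    have h1 := hσ.2 (fun j => A k j ∪ A k' j) (fun j _ => union_subset (hA k j) (hA k' j))
    have h2 := htwo k hk k' hk'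
    have h3 : ∏ j : Fin m, ∑ v ∈ U j, wt (U j) (A k j) v * wt (U j) (A k' j) v =
        (ck k * ck k' * ∏ j ∈ range m, (1 - (A k j ∪ A k' j).card / (U j).card : ℝ)) * ∏ j : Fin m, ((U j).card : ℝ) := by
      rw [Finset.prod_range, ← hck', ← hck', ← prod_mul_distrib, ← prod_mul_distrib, ← prod_mul_distrib]
      apply prod_congr rfl
      intro j _
      exact wt_two (U j) (A k j) (A k' j) (hA k j) (hA k' j) (hlt k hk j j.2) (hlt k' hk' j j.2)
    rw [h3] at h2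
    have h4 : 0 < ∏ j : Fin m, ((U j).card : ℝ) := prod_pos fun j _ => hUr j
    have h5 := le_of_mul_le_mul_right h2 h4
    have h6 := (abs_le.1 h1).2
    rw [← hI] at h6
    have h8 : ((univ.filter fun i => ∀ j < m, σ i j ∉ A k j ∪ A k' j).card : ℝ) = nh (fun j => A k j ∪ A k' j) := by rw [hnh]
    rw [h8] at h6
    have hcc : 0 ≤ ck k * ck k' := mul_nonneg (hc0 k hk) (hc0 k' hk')
    have h9 := mul_le_mul_of_nonneg_left (show nh (fun j => A k j ∪ A k' j) ≤
      I * ∏ j ∈ range m, (1 - (A k j ∪ A k' j).card / (U j).card : ℝ) + I * δ by linarith) hcc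
    have h10 : ck k * ck k' * δ ≤ τ := by
      refine le_trans ?_ hτ
      apply mul_le_mul_of_nonneg_right _ hδ0
      rw [sq]
      exact mul_le_mul (hcC k hk) (hcC k' hk') (hc0 k' hk') (by linarith)
    have h11 := mul_le_mul_of_nonneg_left h10 hι
    have h12 := mul_le_mul_of_nonneg_left h5 hι
    calc ck k * ck k' * nh (fun j => A k j ∪ A k' j) ≤ _ := h9
      _ = I * (ck k * ck k' * ∏ j ∈ range m, (1 - (A k j ∪ A k' j).card / (U j).card : ℝ)) +
          I * (ck k * ck k' * δ) := by ring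
      _ ≤ _ := by rw [mul_add]; linarith
  obtain ⟨Z, hZ⟩ : ∃ Z : ι → ℝ, Z = fun i => ∑ k ∈ range R, ck k * (if (∀ j < m, σ i j ∉ A k j) then 1 else 0) := ⟨_, rfl⟩
  have hZ' : ∀ i, ∑ k ∈ range R, ∏ j : Fin m, wt (U j) (A k j) (σ i j) = Z i := fun i => by
    rw [hZ]
    exact sum_congr rfl fun k _ => hw k i
  have hZ1 : I * (1 - τ) * R ≤ ∑ i, Z i := by
    rw [hZ, sum_comm]
    have h1 : ∀ k ∈ range R, I * (1 - τ) ≤ ∑ i, ck k * (if (∀ j < m, σ i j ∉ A k j) then (1 : ℝ) else 0) := by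
      intro k hk
      rw [mem_range] at hk
      rw [← mul_sum, hcount]
      exact hone k hk
    have := sum_le_sum h1
    rw [sum_const, card_range, nsmul_eq_mul] at this
    linarith
  have hZ2 : ∑ i, Z i ^ 2 ≤ I * ((1 + η) * (R : ℝ) ^ 2 + τ * (R : ℝ) ^ 2) := by
    have h1 : ∀ i, Z i ^ 2 = ∑ k ∈ range R, ∑ k' ∈ range R, ck k * ck k' * (if (∀ j < m, σ i j ∉ A k j ∪ A k' j) then 1 else 0) := by
      intro i
      rw [hZ]
      simp only
      rw [sq, sum_mul_sum]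
      apply sum_congr rfl
      intro k _
      apply sum_congr rfl
      intro k' _
      by_cases h1 : ∀ j < m, σ i j ∉ A k j
      · by_cases h2 : ∀ j < m, σ i j ∉ A k' j
        · rw [if_pos h1, if_pos h2, if_pos (fun j hj => by rw [mem_union]; exact not_or.2 ⟨h1 j hj, h2 j hj⟩)]
          ring
        · rw [if_pos h1, if_neg h2, if_neg (fun h => h2 fun j hj hh => h j hj (mem_union_right _ hh))]
          ring
      · have h3 : ¬ ∀ j < m, σ i j ∉ A k j ∪ A k' j := fun h => h1 fun j hj hh => h j hj (mem_union_left _ hh)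
        rw [if_neg h1, if_neg h3]
        ring
    rw [sum_congr rfl fun i _ => h1 i, sum_comm]
    have h2 : ∀ k ∈ range R, ∑ i, ∑ k' ∈ range R, ck k * ck k' * (if (∀ j < m, σ i j ∉ A k j ∪ A k' j) then (1 : ℝ) else 0) ≤
        ∑ k' ∈ range R, I * (e k k' + τ) := by
      intro k hk
      rw [mem_range] at hk
      rw [sum_comm]
      apply sum_le_sum
      intro k' hk'
      rw [mem_range] at hk'
      rw [← mul_sum, hcount (fun j => A k j ∪ A k' j)]
      exact htwo' k hk k' hk'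
    refine (sum_le_sum h2).trans ?_
    have h3 : ∑ k ∈ range R, ∑ k' ∈ range R, I * (e k k' + τ) = I * (∑ k ∈ range R, ∑ k' ∈ range R, e k k' + τ * (R : ℝ) ^ 2) := by
      have : ∀ k ∈ range R, ∑ k' ∈ range R, I * (e k k' + τ) = I * (∑ k' ∈ range R, e k k' + R * τ) := by
        intro k _
        rw [← mul_sum, sum_add_distrib, sum_const, card_range, nsmul_eq_mul]
      rw [sum_congr rfl this, ← mul_sum, sum_add_distrib, sum_const, card_range, nsmul_eq_mul]
      ring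
    rw [h3]
    apply mul_le_mul_of_nonneg_left _ hι
    linarith
  simp only [hZ']
  exact ⟨hZ1, hZ2⟩

/-- the second moment method (Paley-Zygmund) -/
theorem pzN {ι : Type*} [Fintype ι] (Z : ι → ℝ) (R τ C : ℝ) (hR : 0 < R) (hτ : τ ≤ 1 / 2) (hC : 0 < C)
    (h1 : Fintype.card ι * (1 - τ) * R ≤ ∑ i, Z i) (h2 : ∑ i, Z i ^ 2 ≤ Fintype.card ι * (C * R ^ 2)) :
    1 / (4 * C) * Fintype.card ι ≤ ((univ.filter fun i => Z i ≠ 0).card : ℝ) := by
  classical
  obtain ⟨I, hI⟩ : ∃ I : ℝ, I = Fintype.card ι := ⟨_, rfl⟩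
  have hI0 : 0 ≤ I := by rw [hI]; exact Nat.cast_nonneg _
  rw [← hI] at h1 h2 ⊢
  obtain ⟨F, hF⟩ : ∃ F, F = univ.filter fun i => Z i ≠ 0 := ⟨_, rfl⟩
  rw [← hF]
  have h3 : ∑ i ∈ F, Z i = ∑ i, Z i := by rw [hF, sum_filter_ne_zero]
  have h4 : ∑ i ∈ F, Z i ^ 2 ≤ ∑ i, Z i ^ 2 := sum_le_sum_of_subset_of_nonneg (subset_univ _) fun _ _ _ => sq_nonneg _
  have h5 : (∑ i ∈ F, Z i) ^ 2 ≤ F.card * ∑ i ∈ F, Z i ^ 2 := sq_sum_le_card_mul_sum_sq
  rw [h3] at h5
  have h6 : I * (1 / 2) * R ≤ ∑ i, Z i := by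
    refine le_trans ?_ h1
    apply mul_le_mul_of_nonneg_right _ hR.le
    exact mul_le_mul_of_nonneg_left (by linarith) hI0
  have h7 : (I * (1 / 2) * R) ^ 2 ≤ (∑ i, Z i) ^ 2 := pow_le_pow_left₀ (by positivity) h6 2
  have h8 : (I * (1 / 2) * R) ^ 2 ≤ F.card * (I * (C * R ^ 2)) :=
    h7.trans (h5.trans (mul_le_mul_of_nonneg_left (h4.trans h2) (Nat.cast_nonneg _)))
  rcases hI0.eq_or_lt with h0 | h0
  · rw [← h0, mul_zero]
    exact Nat.cast_nonneg _
  · have h9 : I * (1 / 4) * (I * R ^ 2) ≤ (F.card * C) * (I * R ^ 2) := by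
      calc I * (1 / 4) * (I * R ^ 2) = (I * (1 / 2) * R) ^ 2 := by ring
        _ ≤ _ := h8
        _ = _ := by ring
    have h10 := le_of_mul_le_mul_right h9 (by positivity)
    rw [one_div, inv_mul_le_iff₀ (by positivity)]
    linarith

end Run7.h251.CN
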