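import Pool.Agent.Run7.h251.CN.Law

/-!
# The critical length, part 6: the longest run of composite values
-/

set_option autoImplicit false

namespace Run7.h251.CN

open Finset Filter
open Pool.Agent.Run7.h931.RS (Pw one_le_Pw ev_log)
open Pool.Agent.Run7.h931.RL (cls sur sur_mono sur_succ sur_zero sur_id)
open Run7.h251.KW (surv FreeS freeS_iff FreeS.mono runS)
open Run7.h251.NI (Fool)

/-- the law of the longest run -/
theorem law (ε : ℝ) (hε : 0 < ε) (hε1 : ε ≤ 1) : ∃ w₀ : ℕ, ∀ T a w : ℕ, w₀ ≤ w → ∀ M : ℕ, 1 ≤ M → (∀ p : ℕ, p.Prime → (p ∣ M ↔ p ≤ w)) →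
    ∃ K₀ : ℝ, 1 ≤ K₀ ∧ ∀ K : ℝ, K₀ ≤ K → ∀ᶠ N : ℕ in atTop, ∀ q : ℕ,
    (N : ℝ) ≤ q * Real.log N ^ a → q ≤ N → ∀ (Δ : ℝ) (m : ℕ) (c b : ℕ → ℕ), 0 ≤ Δ → Δ ≤ Real.exp (-(9 / 4 * Real.log N)) → (∀ j, b j ≤ T * N) →
      ∀ (ι : Type) [Fintype ι] (σ : ι → ℕ → ℕ), Fool Δ m (fun j => cls M (c j) (b j) q) σ →
      Real.log N ^ 2 + K * Real.log N ≤ Pw w * sur M c m →
      ((univ.filter fun i => K * Real.log N < |Pw w * sur M c (runS N m (σ i)) - Real.log N ^ 2|).card : ℝ) ≤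
        ε * Fintype.card ι := by
  classical
  obtain ⟨w₀, hw₀⟩ := count (ε / 2) (by positivity) (by linarith)
  refine ⟨w₀, fun T a w hw M hM1 hM => ?_⟩
  have hP := one_le_Pw w
  obtain ⟨K1, hK1, h1⟩ := above T a w M hM1 hM (ε / 2) (by positivity) (by linarith)
  obtain ⟨K2, hK2, h2⟩ := hw₀ T a w hw M hM1 hM
  refine ⟨K1 + K2 + 1, by linarith, fun K hK => ?_⟩
  filter_upwards [h1, h2, ev_log (Pw w), ev_log (K2 + 1), eventually_ge_atTop 3] with
    N g1 g2 g3 g4 g6 q hq hqN Δ m c b hΔ0 hκ hb ι _ σ hσ hm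
  obtain ⟨L, hL⟩ : ∃ L, L = Real.log (N : ℝ) := ⟨_, rfl⟩
  have hN0 : (0 : ℝ) < N := by exact_mod_cast (by omega : 0 < N)
  have k1 := fun k (hk : k ≤ m) => g1 q hq hqN Δ k c b hκ hb ι σ (hσ.mono hk)
  have k2 := fun k (hk : k ≤ m) => g2 q hq hqN Δ k c b hΔ0 hκ hb ι σ (hσ.mono hk)
  rw [← hL] at g3 g4 hm k1 k2 hκ ⊢
  have hL0 : 0 < L := by linarith
  have hι : (0 : ℝ) ≤ Fintype.card ι := Nat.cast_nonneg _
  obtain ⟨B1, hB1⟩ : ∃ B1 : Finset ι, B1 = univ.filter fun i => L ^ 2 + K * L < Pw w * sur M c (runS N m (σ i)) := ⟨_, rfl⟩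
  obtain ⟨B2, hB2⟩ : ∃ B2 : Finset ι, B2 = univ.filter fun i => Pw w * sur M c (runS N m (σ i)) < L ^ 2 - K * L := ⟨_, rfl⟩
  have c1 : (B1.card : ℝ) ≤ ε / 2 * Fintype.card ι := by
    have hex : ∃ k, L ^ 2 + K * L ≤ Pw w * sur M c k := ⟨m, hm⟩
    obtain ⟨k, hk⟩ : ∃ k, k = Nat.find hex := ⟨_, rfl⟩
    have hk1 : L ^ 2 + K * L ≤ Pw w * sur M c k := by rw [hk]; exact Nat.find_spec hex
    have hk2 : ∀ k' < k, Pw w * sur M c k' < L ^ 2 + K * L := fun k' h => not_le.1 (Nat.find_min hex (by rw [← hk]; exact h))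
    have hkm : k ≤ m := by rw [hk]; exact Nat.find_min' hex hm
    have d1 := k1 k hkm (by
      have : K1 * L ≤ K * L := mul_le_mul_of_nonneg_right (by linarith) hL0.le
      linarith)
    have d2 : (B1.card : ℝ) ≤ ((univ.filter fun i => (surv N k (σ i)).Nonempty).card : ℝ) := by
      have : B1 ⊆ univ.filter fun i => (surv N k (σ i)).Nonempty := by
        intro i hi
        rw [hB1, mem_filter] at hi
        rw [mem_filter]
        refine ⟨mem_univ i, ?_⟩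
        have e1 : k ≤ runS N m (σ i) := by
          by_contra hlt
          have := hk2 _ (not_le.1 hlt)
          linarith [hi.2]
        have e2 : runS N m (σ i) ≠ 0 := by
          intro h0
          rw [h0, sur_zero, Nat.cast_zero, mul_zero] at hi
          have h3 : 0 ≤ K * L := mul_nonneg (by linarith) hL0.le
          have : 0 < L ^ 2 + K * L := by positivity
          linarith [hi.2]
        have e3 : FreeS N (runS N m (σ i)) (σ i) := Nat.findGreatest_of_ne_zero rfl e2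
        exact (freeS_iff N k (σ i)).1 (e3.mono e1)
      exact_mod_cast card_le_card this
    exact d2.trans d1
  have c2 : (B2.card : ℝ) ≤ ε / 2 * Fintype.card ι := by
    obtain ⟨k, hk⟩ : ∃ k, k = Nat.findGreatest (fun k => Pw w * sur M c k ≤ L ^ 2 - K2 * L) m := ⟨_, rfl⟩
    have h0 : Pw w * sur M c 0 ≤ L ^ 2 - K2 * L := by
      rw [sur_zero, Nat.cast_zero, mul_zero]
      nlinarith
    have hk1 : Pw w * sur M c k ≤ L ^ 2 - K2 * L := by
      rw [hk]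
      exact Nat.findGreatest_spec (P := fun k => Pw w * sur M c k ≤ L ^ 2 - K2 * L) (Nat.zero_le m) h0
    have hkm : k ≤ m := by rw [hk]; exact Nat.findGreatest_le m
    have hkm' : k < m := by
      rcases hkm.lt_or_eq with h | h
      · exact h
      · exfalso
        rw [h] at hk1
        have h3 : 0 < K2 * L := mul_pos (by linarith) hL0
        have h4 : 0 ≤ K * L := mul_nonneg (by linarith) hL0.le
        linarith
    have hk2 : L ^ 2 - K * L ≤ Pw w * sur M c k := by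
      have e1 : ¬ (Pw w * sur M c (k + 1) ≤ L ^ 2 - K2 * L) :=
        Nat.findGreatest_is_greatest (P := fun k => Pw w * sur M c k ≤ L ^ 2 - K2 * L) (n := m) (by rw [← hk]; omega) (by omega)
      have e2 : (sur M c (k + 1) : ℝ) ≤ sur M c k + 1 := by exact_mod_cast sur_succ M c k
      have e3 := mul_le_mul_of_nonneg_left e2 (by linarith : (0 : ℝ) ≤ Pw w)
      rw [not_le] at e1
      have e4 : (K2 + 1) * L ≤ K * L := mul_le_mul_of_nonneg_right (by linarith) hL0.le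
      linarith
    clear hk
    have d1 := k2 k hkm hk1
    refine le_trans ?_ d1
    have : B2 ⊆ univ.filter fun i => ¬ (N * Real.exp (-(Pw w * sur M c k / L)) / K2 ≤ (late N k (σ i)).card ∧
          ((surv N k (σ i)).card : ℝ) ≤ K2 * (N * Real.exp (-(Pw w * sur M c k / L)))) := by
      intro i hi
      rw [hB2, mem_filter] at hi
      rw [mem_filter]
      refine ⟨mem_univ i, ?_⟩
      rintro ⟨h1, _⟩
      have e1 : 0 < N * Real.exp (-(Pw w * sur M c k / L)) / K2 := by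
        have h3 : 0 < K2 := by linarith
        have h4 := Real.exp_pos (-(Pw w * sur M c k / L))
        exact div_pos (mul_pos hN0 h4) h3
      have e2 : (0 : ℝ) < (late N k (σ i)).card := lt_of_lt_of_le e1 h1
      have e3 : 0 < (late N k (σ i)).card := by exact_mod_cast e2
      have e4 : FreeS N k (σ i) := (freeS_iff N k (σ i)).2 ((card_pos.1 e3).mono (filter_subset _ _))
      have e5 : k ≤ runS N m (σ i) := Nat.le_findGreatest hkm e4
      have e6 : (sur M c k : ℝ) ≤ sur M c (runS N m (σ i)) := by exact_mod_cast sur_mono M c k _ e5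
      have e7 := mul_le_mul_of_nonneg_left e6 (by linarith : (0 : ℝ) ≤ Pw w)
      linarith [hi.2]
    exact_mod_cast card_le_card this
  have c3 : (univ.filter fun i => K * L < |Pw w * sur M c (runS N m (σ i)) - L ^ 2|) ⊆ B1 ∪ B2 := by
    intro i hs
    rw [mem_filter] at hs
    rw [mem_union, hB1, hB2, mem_filter, mem_filter]
    rcases lt_abs.1 hs.2 with h | h
    · left
      exact ⟨hs.1, by linarith⟩
    · right
      exact ⟨hs.1, by linarith⟩
  have c4 : (((univ.filter fun i => K * L < |Pw w * sur M c (runS N m (σ i)) - L ^ 2|)).card : ℝ) ≤ B1.card + B2.card := by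
    exact_mod_cast (card_le_card c3).trans (card_union_le B1 B2)
  linarith

/-- perturbed intervals -/
theorem law_i (ε : ℝ) (hε : 0 < ε) (hε1 : ε ≤ 1) : ∃ w₀ : ℕ, ∀ T a w : ℕ, w₀ ≤ w → ∀ M : ℕ, 1 ≤ M → (∀ p : ℕ, p.Prime → (p ∣ M ↔ p ≤ w)) →
    ∃ K₀ : ℝ, 1 ≤ K₀ ∧ ∀ K : ℝ, K₀ ≤ K → ∀ᶠ N : ℕ in atTop, ∀ q : ℕ,
    (N : ℝ) ≤ q * Real.log N ^ a → q ≤ N → ∀ (Δ : ℝ) (m : ℕ) (c b : ℕ → ℕ), 0 ≤ Δ → Δ ≤ Real.exp (-(9 / 4 * Real.log N)) → (∀ j, b j ≤ T * N) →
      ∀ (ι : Type) [Fintype ι] (σ : ι → ℕ → ℕ), Fool Δ m (fun j => cls M (c j) (b j) q) σ →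
      (∀ j < m, c j = j) → Real.log N ^ 2 + K * Real.log N ≤ m →
      ((univ.filter fun i => K * Real.log N < |(runS N m (σ i) : ℝ) - Real.log N ^ 2|).card : ℝ) ≤
        ε * Fintype.card ι := by
  classical
  obtain ⟨w₀, hw₀⟩ := law ε hε hε1
  refine ⟨w₀, fun T a w hw M hM1 hM => ?_⟩
  have hP := one_le_Pw w
  obtain ⟨K₀, hK₀, h1⟩ := hw₀ T a w hw M hM1 hM
  refine ⟨K₀ + 1, by linarith, fun K hK => ?_⟩
  filter_upwards [h1 (K - 1) (by linarith), ev_log M, ev_log 1] with N g1 g2 g3 q hq hqN Δ m c b hΔ0 hκ hb ι _ σ hσ hc hm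
  have k1 := g1 q hq hqN Δ m c b hΔ0 hκ hb ι σ hσ
  obtain ⟨L, hL⟩ : ∃ L, L = Real.log (N : ℝ) := ⟨_, rfl⟩
  rw [← hL] at g2 g3 hm k1 ⊢
  have hid : ∀ k ≤ m, |Pw w * sur M c k - k| ≤ M := fun k hk => sur_id w M hM1 hM c k (fun j hj => hc j (by omega))
  have h1 := (abs_le.1 (hid m le_rfl)).1
  have k2 := k1 (by linarith)
  refine le_trans ?_ k2
  have : (univ.filter fun i => K * L < |(runS N m (σ i) : ℝ) - L ^ 2|) ⊆
      (univ.filter fun i => (K - 1) * L < |Pw w * sur M c (runS N m (σ i)) - L ^ 2|) := by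
    intro i hs
    rw [mem_filter] at hs ⊢
    refine ⟨hs.1, ?_⟩
    have h2 := hid (runS N m (σ i)) (Nat.findGreatest_le m)
    have h3 : |(runS N m (σ i) : ℝ) - L ^ 2| ≤ |(runS N m (σ i) : ℝ) - Pw w * sur M c (runS N m (σ i))| +
      |Pw w * sur M c (runS N m (σ i)) - L ^ 2| := abs_sub_le _ _ _
    rw [abs_sub_comm] at h2
    linarith [hs.2]
  exact_mod_cast card_le_card this

/-- the error of the generator -/
lemma err (M p a N k : ℕ) [Fact p.Prime] (K : Type) [Field K] [Fintype K] (hq : (N : ℝ) ≤ (M * p : ℕ) * Real.log N ^ a)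
    (k4 : (M : ℝ) ^ 10 * Real.log N ^ (10 * a) ≤ N) (k5 : 3 ≤ N) (hK : p ^ 6 ≤ Fintype.card K) (hk : 4 ^ k ≤ p) :
    (2 : ℝ) ^ k / Real.sqrt (Fintype.card K) ≤ Real.exp (-(9 / 4 * Real.log N)) := by
  have hp0 : (0 : ℝ) < p := by exact_mod_cast (Fact.out : p.Prime).pos
  have hN0 : (0 : ℝ) < N := by exact_mod_cast (by omega : 0 < N)
  have hQ : (p : ℝ) ^ 6 ≤ Fintype.card K := by exact_mod_cast hK
  have hQ0 : (0 : ℝ) < Fintype.card K := lt_of_lt_of_le (by positivity) hQ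
  have h4 : ((2 : ℝ) ^ k / Real.sqrt (Fintype.card K)) ^ 4 = ((4 : ℝ) ^ k) ^ 2 / (Fintype.card K : ℝ) ^ 2 := by
    have e1 : Real.sqrt (Fintype.card K) ^ 4 = (Fintype.card K : ℝ) ^ 2 := by
      rw [show (4 : ℕ) = 2 * 2 by norm_num, pow_mul, Real.sq_sqrt hQ0.le]
    have e2 : ((2 : ℝ) ^ k) ^ 4 = ((4 : ℝ) ^ k) ^ 2 := by
      rw [show (4 : ℝ) = 2 ^ 2 by norm_num, ← pow_mul, ← pow_mul, ← pow_mul]
      congr 1
      ring
    rw [div_pow, e1, e2]
  have h5 : (4 : ℝ) ^ k ≤ p := by exact_mod_cast hk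
  have h6 : ((4 : ℝ) ^ k) ^ 2 / (Fintype.card K : ℝ) ^ 2 ≤ (p : ℝ) ^ 2 / ((p : ℝ) ^ 6) ^ 2 :=
    div_le_div₀ (by positivity) (pow_le_pow_left₀ (by positivity) h5 2) (by positivity) (pow_le_pow_left₀ (by positivity) hQ 2)
  have h7 : (p : ℝ) ^ 2 / ((p : ℝ) ^ 6) ^ 2 = 1 / (p : ℝ) ^ 10 := by field_simp
  have h8 : (N : ℝ) ^ 9 ≤ (p : ℝ) ^ 10 := by
    have e1 : (N : ℝ) ≤ p * (M * Real.log N ^ a) := by
      refine hq.trans (le_of_eq ?_)
      push_cast
      ring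
    have e2 := pow_le_pow_left₀ hN0.le e1 10
    have e3 : (p * ((M : ℝ) * Real.log N ^ a)) ^ 10 = p ^ 10 * ((M : ℝ) ^ 10 * Real.log N ^ (10 * a)) := by ring
    rw [e3] at e2
    have e4 : (p : ℝ) ^ 10 * ((M : ℝ) ^ 10 * Real.log N ^ (10 * a)) ≤ p ^ 10 * N := mul_le_mul_of_nonneg_left k4 (by positivity)
    have e5 : (N : ℝ) ^ 9 * N ≤ p ^ 10 * N := by
      have : (N : ℝ) ^ 9 * N = N ^ 10 := by ring
      rw [this]
      exact e2.trans e4
    exact le_of_mul_le_mul_right e5 hN0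
  have h9 : Real.exp (-(9 / 4 * Real.log N)) ^ 4 = 1 / (N : ℝ) ^ 9 := by
    rw [← Real.exp_nat_mul]
    have e1 : ((4 : ℕ) : ℝ) * -(9 / 4 * Real.log N) = -(((9 : ℕ) : ℝ) * Real.log N) := by push_cast; ring
    rw [e1, Real.exp_neg, Real.exp_nat_mul, Real.exp_log hN0, one_div]
  have h10 : ((2 : ℝ) ^ k / Real.sqrt (Fintype.card K)) ^ 4 ≤ Real.exp (-(9 / 4 * Real.log N)) ^ 4 := by
    rw [h4, h9]
    refine (h6.trans (le_of_eq h7)).trans ?_
    exact one_div_le_one_div_of_le (by positivity) h8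
  exact (pow_le_pow_iff_left₀ (by positivity) (Real.exp_pos _).le (by norm_num)).1 h10

end Run7.h251.CN
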